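import Pool.Agent.Lib_helper25.PV.Defs
import Pool.Agent.Lib_helper71.EQM.Odes

/-! Project PV (MP_b08f5f_an), block B1b: the vortex flow with all its properties. -/

set_option autoImplicit false

namespace Pool.Agent.Lib_helper25.PV

open MeasureTheory Filter Topology Set
open scoped ComplexConjugate

noncomputable section

theorem B1b_vel_smul {N : ℕ} (a : ℂ) (z : Conf N) :
    vel (a • z) = (1 / conj a) • vel z := by
  funext i
  simp only [vel, Pi.smul_apply, smul_eq_mul, Finset.mul_sum]
  refine Finset.sum_congr rfl fun j _ => ?_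
  rw [← mul_sub, map_mul, one_div, one_div, one_div, mul_inv]
  ring

theorem B1b_vel_add {N : ℕ} (b : ℂ) (z : Conf N) : vel (fun i => z i + b) = vel z := by
  funext i
  simp only [vel, add_sub_add_right_eq_sub]

theorem B1b_inj_smul {N : ℕ} {a : ℂ} (ha : a ≠ 0) (z : Conf N) :
    Function.Injective (a • z) ↔ Function.Injective z := by
  constructor
  · intro h i j hij
    exact h (by simp only [Pi.smul_apply, hij])
  · intro h i j hij
    simp only [Pi.smul_apply, smul_eq_mul] at hij
    exact h (mul_left_cancel₀ ha hij)

theorem B1b_inj_add {N : ℕ} (b : ℂ) (z : Conf N) :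
    Function.Injective (fun i => z i + b) ↔ Function.Injective z := by
  constructor
  · intro h i j hij
    exact h (by simp only [hij])
  · intro h i j hij
    exact h (add_right_cancel hij)

/-- configurations with a collision form a null set -/
theorem B1b_ae (N : ℕ) : ∀ᵐ z : Conf N, Function.Injective z := by
  have key : ∀ i j : Fin N, i ≠ j → ∀ᵐ z : Conf N, z i ≠ z j := by
    intro i j hij
    let L : Conf N →ₗ[ℝ] ℂ :=
      { toFun := fun z => z i - z j
        map_add' := fun x y => by simp only [Pi.add_apply]; ring
        map_smul' := fun r x => by simp only [Pi.smul_apply, RingHom.id_apply, smul_sub] }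
    have hne : LinearMap.ker L ≠ ⊤ := by
      intro h
      have h1 : (Pi.single i (1 : ℂ) : Conf N) ∈ LinearMap.ker L := by
        rw [h]; exact Submodule.mem_top
      rw [LinearMap.mem_ker] at h1
      have h2 : L (Pi.single i (1 : ℂ) : Conf N) = 1 := by
        change (Pi.single i (1 : ℂ) : Conf N) i - (Pi.single i (1 : ℂ) : Conf N) j = 1
        rw [Pi.single_eq_same, Pi.single_eq_of_ne (Ne.symm hij), sub_zero]
      rw [h2] at h1
      exact one_ne_zero h1
    have h0 := Measure.addHaar_submodule (volume : Measure (Conf N)) (LinearMap.ker L) hne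
    rw [ae_iff]
    refine measure_mono_null ?_ h0
    intro z hz
    simp only [mem_ofPred_eq, ne_eq, not_not] at hz
    change L z = 0
    change z i - z j = 0
    rw [hz, sub_self]
  have key2 : ∀ᵐ z : Conf N, ∀ i j : Fin N, i ≠ j → z i ≠ z j := by
    rw [ae_all_iff]
    intro i
    rw [ae_all_iff]
    intro j
    by_cases h : i = j
    · exact Eventually.of_forall fun z hz => absurd h hz
    · filter_upwards [key i j h] with z hz _ using hz
  filter_upwards [key2] with z hz i j hij
  by_contra hne
  exact hz i j hne hij

theorem exists_vflow_of (N : ℕ) (hN : 1 ≤ N) (hU : IsOpen (NC N))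
    (G : Pool.Agent.EQ.OD.GlobalFlow (vel (N := N)) (NC N))
    (hc : ∀ t z, centre (G.φ t z) = centre z) (hi : ∀ t z, inertia (G.φ t z) = inertia z)
    (hmp : ∀ t, MeasurePreserving (G.φ t) volume volume) : Nonempty (VFlow N) := by
  classical
  have hmot : ∀ z, Function.Injective z → Motion (fun t => G.φ t z) := by
    intro z hz t
    refine ⟨G.mem t z hz, ?_⟩
    have h := G.dt t z hz
    rw [hasDerivAt_pi] at h
    exact h
  have huniq : ∀ w, Motion w → ∀ t, w t = G.φ t (w 0) := by
    intro w hw t
    have hs : Pool.Agent.EQ.OD.Sol (vel (N := N)) (NC N) w univ := by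
      intro s _
      refine ⟨(hw s).1, ?_⟩
      rw [hasDerivAt_pi]
      exact (hw s).2
    have h := G.uniq w hs t 0
    rwa [add_zero] at h
  have hsm : ∀ (a : ℂ) (r : ℝ), a ≠ 0 → (r : ℂ) * a = 1 / conj a → ∀ t z,
      G.φ t (a • z) = a • G.φ (r * t) z := by
    intro a r ha hr t z
    by_cases hz : Function.Injective z
    · have hM : Motion (fun t => a • G.φ (r * t) z) := by
        intro s
        refine ⟨(B1b_inj_smul ha _).2 (hmot z hz (r * s)).1, fun i => ?_⟩
        have h1 := (hmot z hz (r * s)).2 i
        have h2 : HasDerivAt (fun s : ℝ => r * s) r s := by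
          simpa using (hasDerivAt_id s).const_mul r
        have h3 := HasDerivAt.scomp s h1 h2
        have h4 := h3.const_mul a
        have h5 : vel (a • G.φ (r * s) z) i = a * (r • vel (G.φ (r * s) z) i) := by
          rw [B1b_vel_smul, Pi.smul_apply, smul_eq_mul, ← hr, Complex.real_smul]
          ring
        rw [h5]
        exact h4
      have h := huniq _ hM t
      simp only [mul_zero, G.zero] at h
      exact h.symm
    · have hz' : a • z ∉ NC N := fun h => hz ((B1b_inj_smul ha z).1 h)
      rw [G.out t _ hz', G.out _ z hz]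
  refine ⟨⟨G.φ, G.zero, G.add, hmot, huniq, ?_, ?_, hmp, ?_, ?_, ?_, hc, hi, B1b_ae N⟩⟩
  · -- measurable
    have hS : MeasurableSet ((univ : Set ℝ) ×ˢ NC N) := (isOpen_univ.prod hU).measurableSet
    have h1 : ContinuousOn (fun p : ℝ × Conf N => G.φ p.1 p.2) (univ ×ˢ NC N) :=
      G.smooth.continuousOn
    have h2 : ContinuousOn (fun p : ℝ × Conf N => p.2) ((univ : Set ℝ) ×ˢ NC N)ᶜ :=
      continuous_snd.continuousOn
    have h3 := h1.measurable_piecewise h2 hS
    convert h3 using 1
    funext p
    by_cases hp : p ∈ (univ : Set ℝ) ×ˢ NC N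
    · rw [piecewise_eq_of_mem _ _ _ hp]
    · rw [piecewise_eq_of_notMem _ _ _ hp]
      exact G.out _ _ fun h => hp ⟨mem_univ _, h⟩
  · -- continuous
    intro z
    by_cases hz : z ∈ NC N
    · exact continuous_iff_continuousAt.2 fun t => (G.dt t z hz).continuousAt
    · have : (fun t => G.φ t z) = fun _ => z := funext fun t => G.out t z hz
      rw [this]
      exact continuous_const
  · -- rotation
    intro a ha t z
    have ha0 : a ≠ 0 := by
      intro h
      rw [h, norm_zero] at ha
      exact zero_ne_one ha
    have hr : ((1 : ℝ) : ℂ) * a = 1 / conj a := by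
      have h1 : a * conj a = 1 := by
        rw [Complex.mul_conj, Complex.normSq_eq_norm_sq, ha]
        simp
      rw [Complex.ofReal_one, one_mul, eq_div_iff (by simpa using ha0), h1]
    rw [hsm a 1 ha0 hr t z, one_mul]
  · -- translation
    intro b t z
    by_cases hz : Function.Injective z
    · have hM : Motion (fun t => fun i => G.φ t z i + b) := by
        intro s
        refine ⟨(B1b_inj_add b _).2 (hmot z hz s).1, fun i => ?_⟩
        rw [B1b_vel_add]
        exact ((hmot z hz s).2 i).add_const b
      have h := huniq _ hM t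
      simp only [G.zero] at h
      exact h.symm
    · have hz' : (fun i => z i + b) ∉ NC N := fun h => hz ((B1b_inj_add b z).1 h)
      rw [G.out t _ hz', G.out _ z hz]
  · -- scaling
    intro r hr t z
    have hr0 : (r : ℂ) ≠ 0 := by exact_mod_cast hr.ne'
    have h : (((1 / r ^ 2 : ℝ)) : ℂ) * (r : ℂ) = 1 / conj (r : ℂ) := by
      rw [Complex.conj_ofReal]
      push_cast
      field_simp
    rw [hsm (r : ℂ) (1 / r ^ 2) hr0 h t z]
    congr 2
    ring

end

end Pool.Agent.Lib_helper25.PV
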