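import Pool.Agent.Lib_helper41.PV.CountFreq

/-! Project PV (MP_b08f5f_an), block B10B: from the sampled averages to the continuous ones. -/

set_option autoImplicit false

namespace Pool.Agent.Lib_helper57.PV

open MeasureTheory Filter Topology Set
open scoped ComplexConjugate

noncomputable section

/-- One cell: the integral over `[k/m, (k+1)/m]` is the sample times a factor `c`, up to
`L / m^2`. -/
theorem cell_bound {h : ℝ → ℂ} {L : ℝ} (hc : Continuous h)
    (hL : ∀ s t, ‖h s - h t‖ ≤ L * |s - t|) (hL0 : 0 ≤ L) (x a δ : ℝ) (hδ : 0 ≤ δ) :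
    ‖(∫ t in a..(a + δ), Complex.exp (x * t * Complex.I) * h t) -
      (∫ s in (0 : ℝ)..δ, Complex.exp (x * s * Complex.I)) *
        (Complex.exp (x * a * Complex.I) * h a)‖ ≤ L * δ * δ := by
  have hG : Continuous fun t : ℝ => Complex.exp (x * t * Complex.I) * h t := by
    fun_prop
  have e1 : (∫ t in a..(a + δ), Complex.exp (x * t * Complex.I) * h t) =
      ∫ s in (0 : ℝ)..δ, Complex.exp (x * ((a + s : ℝ) : ℂ) * Complex.I) * h (a + s) := by
    have := intervalIntegral.integral_comp_add_left (a := 0) (b := δ)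
      (fun t : ℝ => Complex.exp (x * t * Complex.I) * h t) a
    rw [this, add_zero]
  have e2 : (∫ s in (0 : ℝ)..δ, Complex.exp (x * s * Complex.I)) *
        (Complex.exp (x * a * Complex.I) * h a) =
      ∫ s in (0 : ℝ)..δ, Complex.exp (x * ((a + s : ℝ) : ℂ) * Complex.I) * h a := by
    rw [← intervalIntegral.integral_mul_const]
    refine intervalIntegral.integral_congr fun s _ => ?_
    change Complex.exp (x * s * Complex.I) * (Complex.exp (x * a * Complex.I) * h a) =
      Complex.exp (x * ((a + s : ℝ) : ℂ) * Complex.I) * h a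
    rw [← mul_assoc, ← Complex.exp_add]
    congr 2
    push_cast
    ring
  rw [e1, e2, ← intervalIntegral.integral_sub]
  · have : ∀ s ∈ Set.uIoc (0 : ℝ) δ,
        ‖Complex.exp (x * ((a + s : ℝ) : ℂ) * Complex.I) * h (a + s) -
          Complex.exp (x * ((a + s : ℝ) : ℂ) * Complex.I) * h a‖ ≤ L * δ := by
      intro s hs
      rw [Set.uIoc_of_le hδ] at hs
      rw [← mul_sub, norm_mul]
      have h1 : ‖Complex.exp (x * ((a + s : ℝ) : ℂ) * Complex.I)‖ = 1 := by
        rw [← Complex.ofReal_mul, Complex.norm_exp_ofReal_mul_I]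
      rw [h1, one_mul]
      refine (hL _ _).trans ?_
      have : |a + s - a| ≤ δ := by
        rw [add_sub_cancel_left, abs_of_pos hs.1]
        exact hs.2
      exact mul_le_mul_of_nonneg_left this hL0
    refine (intervalIntegral.norm_integral_le_of_norm_le_const this).trans ?_
    rw [sub_zero, abs_of_nonneg hδ]
  · refine Continuous.intervalIntegrable ?_ _ _
    fun_prop
  · refine Continuous.intervalIntegrable ?_ _ _
    fun_prop

theorem continuous_of_lip {h : ℝ → ℂ} {L : ℝ} (hL : ∀ s t, ‖h s - h t‖ ≤ L * |s - t|)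
    (hL0 : 0 ≤ L) : Continuous h := by
  have : LipschitzWith ⟨L, hL0⟩ h := by
    refine LipschitzWith.of_dist_le_mul fun s t => ?_
    rw [dist_eq_norm, Real.dist_eq]
    exact hL s t
  exact this.continuous

/-- The integral over `[0, n/m]`. -/
theorem sum_bound {h : ℝ → ℂ} {L : ℝ} (hc : Continuous h)
    (hL : ∀ s t, ‖h s - h t‖ ≤ L * |s - t|) (hL0 : 0 ≤ L) (x : ℝ) {m : ℕ} (hm : 0 < m) (n : ℕ) :
    ‖∫ t in (0 : ℝ)..((n : ℝ) / m), Complex.exp (x * t * Complex.I) * h t‖ ≤
      (1 / m : ℝ) * ‖∑ k ∈ Finset.range n,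
        Complex.exp (((x / m : ℝ) : ℂ) * k * Complex.I) * h ((k : ℝ) / m)‖ +
        n * (L / m / m) := by
  have hm' : (0 : ℝ) < m := by exact_mod_cast hm
  have hG : Continuous fun t : ℝ => Complex.exp (x * t * Complex.I) * h t := by
    fun_prop
  set c : ℂ := ∫ s in (0 : ℝ)..(1 / m : ℝ), Complex.exp (x * s * Complex.I) with hcdef
  have hcn : ‖c‖ ≤ 1 / m := by
    have : ∀ s ∈ Set.uIoc (0 : ℝ) (1 / m : ℝ), ‖Complex.exp (x * s * Complex.I)‖ ≤ 1 := by
      intro s _
      rw [← Complex.ofReal_mul, Complex.norm_exp_ofReal_mul_I]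
    refine (intervalIntegral.norm_integral_le_of_norm_le_const this).trans ?_
    rw [sub_zero, one_mul, abs_of_nonneg (by positivity)]
  have hsum : (∫ t in (0 : ℝ)..((n : ℝ) / m), Complex.exp (x * t * Complex.I) * h t) =
      ∑ k ∈ Finset.range n, ∫ t in ((k : ℝ) / m)..((k : ℝ) / m + 1 / m),
        Complex.exp (x * t * Complex.I) * h t := by
    have h1 := intervalIntegral.sum_integral_adjacent_intervals
      (f := fun t : ℝ => Complex.exp (x * t * Complex.I) * h t) (μ := volume)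
      (a := fun k : ℕ => (k : ℝ) / m) (n := n)
      (fun k _ => hG.intervalIntegrable _ _)
    have h2 : ((0 : ℕ) : ℝ) / m = 0 := by simp
    simp only [h2] at h1
    rw [← h1]
    refine Finset.sum_congr rfl fun k _ => ?_
    congr 1
    push_cast
    ring
  rw [hsum]
  have hcell : ∀ k ∈ Finset.range n,
      ‖(∫ t in ((k : ℝ) / m)..((k : ℝ) / m + 1 / m), Complex.exp (x * t * Complex.I) * h t) -
        c * (Complex.exp (((x / m : ℝ) : ℂ) * k * Complex.I) * h ((k : ℝ) / m))‖ ≤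
          L / m / m := by
    intro k _
    have := cell_bound hc hL hL0 x ((k : ℝ) / m) (1 / m) (by positivity)
    have e : Complex.exp (x * (((k : ℝ) / m : ℝ) : ℂ) * Complex.I) =
        Complex.exp (((x / m : ℝ) : ℂ) * k * Complex.I) := by
      congr 1
      push_cast
      ring
    rw [e] at this
    refine this.trans (le_of_eq ?_)
    ring
  calc ‖∑ k ∈ Finset.range n, ∫ t in ((k : ℝ) / m)..((k : ℝ) / m + 1 / m),
        Complex.exp (x * t * Complex.I) * h t‖
      = ‖c * ∑ k ∈ Finset.range n,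
          (Complex.exp (((x / m : ℝ) : ℂ) * k * Complex.I) * h ((k : ℝ) / m)) +
        ∑ k ∈ Finset.range n,
          ((∫ t in ((k : ℝ) / m)..((k : ℝ) / m + 1 / m), Complex.exp (x * t * Complex.I) * h t) -
            c * (Complex.exp (((x / m : ℝ) : ℂ) * k * Complex.I) * h ((k : ℝ) / m)))‖ := by
        congr 1
        rw [Finset.mul_sum, ← Finset.sum_add_distrib]
        refine Finset.sum_congr rfl fun k _ => ?_
        ring
    _ ≤ ‖c * ∑ k ∈ Finset.range n,
          (Complex.exp (((x / m : ℝ) : ℂ) * k * Complex.I) * h ((k : ℝ) / m))‖ +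
        ‖∑ k ∈ Finset.range n,
          ((∫ t in ((k : ℝ) / m)..((k : ℝ) / m + 1 / m), Complex.exp (x * t * Complex.I) * h t) -
            c * (Complex.exp (((x / m : ℝ) : ℂ) * k * Complex.I) * h ((k : ℝ) / m)))‖ :=
        norm_add_le _ _
    _ ≤ (1 / m : ℝ) * ‖∑ k ∈ Finset.range n,
        Complex.exp (((x / m : ℝ) : ℂ) * k * Complex.I) * h ((k : ℝ) / m)‖ +
        n * (L / m / m) := by
        refine add_le_add ?_ ?_
        · rw [norm_mul]
          exact mul_le_mul_of_nonneg_right hcn (norm_nonneg _)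
        · refine (norm_sum_le_of_le _ hcell).trans (le_of_eq ?_)
          simp

/-- The continuous average is small if for every `m` the sampled averages tend to zero. -/
theorem tendsto_of_samples {h : ℝ → ℂ} {L C : ℝ} (hC : ∀ t, ‖h t‖ ≤ C)
    (hL : ∀ s t, ‖h s - h t‖ ≤ L * |s - t|) (x : ℝ)
    (hs : ∀ m : ℕ, 0 < m → Tendsto (fun n : ℕ => (n : ℂ)⁻¹ * ∑ k ∈ Finset.range n,
      Complex.exp (((x / m : ℝ) : ℂ) * k * Complex.I) * h ((k : ℝ) / m)) atTop (𝓝 0)) :
    Tendsto (fun T : ℝ => (T : ℂ)⁻¹ * ∫ t in (0 : ℝ)..T,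
      Complex.exp (x * t * Complex.I) * h t) atTop (𝓝 0) := by
  have hL0 : 0 ≤ L := by
    have h1 := hL 1 0
    simp only [sub_zero, abs_one, mul_one] at h1
    exact (norm_nonneg _).trans h1
  have hC0 : 0 ≤ C := (norm_nonneg _).trans (hC 0)
  have hc : Continuous h := continuous_of_lip hL hL0
  have hG : Continuous fun t : ℝ => Complex.exp (x * t * Complex.I) * h t := by
    fun_prop
  rw [Metric.tendsto_nhds]
  intro ε hε
  have hε3 : 0 < ε / 3 := by positivity
  obtain ⟨m, hm⟩ := exists_nat_gt (L / (ε / 3))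
  have hm' : (0 : ℝ) < m := lt_of_le_of_lt (by positivity) hm
  have hm0 : 0 < m := by exact_mod_cast hm'
  have hLm : L / m < ε / 3 := by
    rw [div_lt_iff₀ hε3] at hm
    rw [div_lt_iff₀ hm']
    linarith
  have hT : Tendsto (fun T : ℝ => ⌊T * m⌋₊) atTop atTop :=
    tendsto_nat_floor_atTop.comp (tendsto_id.atTop_mul_const hm')
  have ev1 := hT.eventually ((Metric.tendsto_nhds.1 (hs m hm0)) (ε / 3) hε3)
  have ev2 : ∀ᶠ T : ℝ in atTop, C / m < ε / 3 * T :=
    (tendsto_id.const_mul_atTop hε3).eventually_gt_atTop (C / m)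
  filter_upwards [ev1, ev2, eventually_gt_atTop (0 : ℝ)] with T h1 h2 h3
  set n : ℕ := ⌊T * m⌋₊ with hn
  rw [dist_zero_right] at h1 ⊢
  have hnT : (n : ℝ) ≤ T * m := Nat.floor_le (by positivity)
  have hnT' : T * m < n + 1 := Nat.lt_floor_add_one _
  have hnm : (n : ℝ) / m ≤ T := by
    rw [div_le_iff₀ hm']
    exact hnT
  have hnm' : T - (n : ℝ) / m ≤ 1 / m := by
    have : T < ((n : ℝ) + 1) / m := by
      rw [lt_div_iff₀ hm']
      exact hnT'
    rw [add_div] at this
    linarith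
  set Sg : ℂ := ∑ k ∈ Finset.range n,
    Complex.exp (((x / m : ℝ) : ℂ) * k * Complex.I) * h ((k : ℝ) / m) with hSg
  have hSn : ‖Sg‖ ≤ n * (ε / 3) := by
    rcases Nat.eq_zero_or_pos n with h0 | h0
    · have : Sg = 0 := by
        rw [hSg, h0]
        simp
      rw [this, h0]
      simp
    · have hn0 : (0 : ℝ) < n := by exact_mod_cast h0
      have e : Sg = (n : ℂ) * ((n : ℂ)⁻¹ * Sg) := by
        rw [← mul_assoc, mul_inv_cancel₀ (by exact_mod_cast h0.ne'), one_mul]
      rw [e, norm_mul, Complex.norm_natCast]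
      exact mul_le_mul_of_nonneg_left h1.le hn0.le
  have hA := sum_bound hc hL hL0 x hm0 n
  have hB : ‖∫ t in ((n : ℝ) / m)..T, Complex.exp (x * t * Complex.I) * h t‖ ≤ C / m := by
    have : ∀ s ∈ Set.uIoc ((n : ℝ) / m) T, ‖Complex.exp (x * s * Complex.I) * h s‖ ≤ C := by
      intro s _
      rw [norm_mul, ← Complex.ofReal_mul, Complex.norm_exp_ofReal_mul_I, one_mul]
      exact hC s
    refine (intervalIntegral.norm_integral_le_of_norm_le_const this).trans ?_
    rw [abs_of_nonneg (by linarith)]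
    calc C * (T - (n : ℝ) / m) ≤ C * (1 / m) := mul_le_mul_of_nonneg_left hnm' hC0
      _ = C / m := by ring
  have hsplit : (∫ t in (0 : ℝ)..T, Complex.exp (x * t * Complex.I) * h t) =
      (∫ t in (0 : ℝ)..((n : ℝ) / m), Complex.exp (x * t * Complex.I) * h t) +
        ∫ t in ((n : ℝ) / m)..T, Complex.exp (x * t * Complex.I) * h t :=
    (intervalIntegral.integral_add_adjacent_intervals
      (hG.intervalIntegrable _ _) (hG.intervalIntegrable _ _)).symm
  have hI : ‖∫ t in (0 : ℝ)..T, Complex.exp (x * t * Complex.I) * h t‖ < T * ε := by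
    rw [hsplit]
    have q1 : (1 / m : ℝ) * ‖Sg‖ ≤ T * (ε / 3) := by
      calc (1 / m : ℝ) * ‖Sg‖ ≤ (1 / m : ℝ) * (n * (ε / 3)) :=
            mul_le_mul_of_nonneg_left hSn (by positivity)
        _ = ((n : ℝ) / m) * (ε / 3) := by ring
        _ ≤ T * (ε / 3) := mul_le_mul_of_nonneg_right hnm hε3.le
    have q2 : (n : ℝ) * (L / m / m) ≤ T * (ε / 3) := by
      calc (n : ℝ) * (L / m / m) = ((n : ℝ) / m) * (L / m) := by ring
        _ ≤ T * (ε / 3) := mul_le_mul hnm hLm.le (by positivity) h3.le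
    calc _ ≤ ‖∫ t in (0 : ℝ)..((n : ℝ) / m), Complex.exp (x * t * Complex.I) * h t‖ +
          ‖∫ t in ((n : ℝ) / m)..T, Complex.exp (x * t * Complex.I) * h t‖ := norm_add_le _ _
      _ ≤ ((1 / m : ℝ) * ‖Sg‖ + n * (L / m / m)) + C / m := add_le_add hA hB
      _ < T * ε := by nlinarith
  rw [norm_mul, norm_inv, Complex.norm_real, Real.norm_of_nonneg h3.le]
  rw [inv_mul_lt_iff₀ h3]
  exact hI

/-- B10B from B10A for the samples. -/
theorem countable_freq_cont_of {h : ℝ → ℂ} {L C : ℝ} (hC : ∀ t, ‖h t‖ ≤ C)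
    (hL : ∀ s t, ‖h s - h t‖ ≤ L * |s - t|)
    (hA : ∀ m : ℕ, 0 < m → {y : ℝ | ¬ Tendsto (fun n : ℕ => (n : ℂ)⁻¹ *
      ∑ k ∈ Finset.range n, Complex.exp (y * k * Complex.I) * h ((k : ℝ) / m)) atTop
        (𝓝 0)}.Countable) :
    {x : ℝ | ¬ Tendsto (fun T : ℝ => (T : ℂ)⁻¹ * ∫ t in (0 : ℝ)..T,
      Complex.exp (x * t * Complex.I) * h t) atTop (𝓝 0)}.Countable := by
  have hU : (⋃ m : {m : ℕ // 0 < m}, (fun x : ℝ => x / (m : ℕ)) ⁻¹'
      {y : ℝ | ¬ Tendsto (fun n : ℕ => (n : ℂ)⁻¹ *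
        ∑ k ∈ Finset.range n, Complex.exp (y * k * Complex.I) * h ((k : ℝ) / (m : ℕ))) atTop
          (𝓝 0)}).Countable := by
    refine Set.countable_iUnion fun m => ?_
    refine (hA m m.2).preimage_of_injOn ?_
    intro u _ v _ huv
    have hm' : ((m : ℕ) : ℝ) ≠ 0 := by exact_mod_cast m.2.ne'
    have huv' : u / ((m : ℕ) : ℝ) = v / ((m : ℕ) : ℝ) := huv
    field_simp at huv'
    exact huv'
  refine hU.mono ?_
  intro x hx
  by_contra hcon
  apply hx
  refine tendsto_of_samples hC hL x ?_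
  intro m hm
  by_contra hcon2
  apply hcon
  rw [Set.mem_iUnion]
  exact ⟨⟨m, hm⟩, hcon2⟩

end

end Pool.Agent.Lib_helper57.PV

namespace Pool.Agent.Lib_helper25.PV

open MeasureTheory Filter Topology Set
open scoped ComplexConjugate

/-- B10B. -/
theorem countable_freq_cont {h : ℝ → ℂ} {L C : ℝ} (hC : ∀ t, ‖h t‖ ≤ C)
    (hL : ∀ s t, ‖h s - h t‖ ≤ L * |s - t|)
    (hγ : ∀ m : ℕ, 0 < m → ∀ j : ℕ, ∃ l : ℂ, Tendsto (fun n : ℕ =>
      (n : ℂ)⁻¹ * ∑ k ∈ Finset.range n, h (((k + j : ℕ) : ℝ) / m) * conj (h ((k : ℝ) / m)))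
        atTop (𝓝 l)) :
    {x : ℝ | ¬ Tendsto (fun T : ℝ => (T : ℂ)⁻¹ * ∫ t in (0 : ℝ)..T,
      Complex.exp (x * t * Complex.I) * h t) atTop (𝓝 0)}.Countable :=
  Pool.Agent.Lib_helper57.PV.countable_freq_cont_of hC hL fun m hm =>
    countable_freq (a := fun k => h ((k : ℝ) / m)) (C := C) (fun _ => hC _) (hγ m hm)

end Pool.Agent.Lib_helper25.PV
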